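import Mathlib
import Pool.Agent.Lib.MP_9e0ccb_an.Explicit

/-!
For every real or complex Hilbert space of cardinality at least `beth ((beth 3)⁺)`, the space of
continuous functions on the weak unit ball is not isomorphic to `C(L)` for any totally
disconnected compact space `L`.
-/

set_option autoImplicit false

namespace Pool.Agent.Results.MP_9e0ccb_an.LargeHilbert

open Pool.Agent.Lib.MP_9e0ccb_an Cardinal

universe v

/-- The closed unit ball of `H`, as a subset of `H` with its weak topology. -/
def wBall (𝕜 H : Type) [NontriviallyNormedField 𝕜] [NormedAddCommGroup H] [NormedSpace 𝕜 H] :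
    Set (WeakSpace 𝕜 H) :=
  toWeakSpace 𝕜 H '' Metric.closedBall 0 1

/-- The spaces of continuous real functions on `K` and on `L` are isomorphic. -/
def CIso (K : Type) (L : Type v) [TopologicalSpace K] [TopologicalSpace L] : Prop :=
  Nonempty (C(K, ℝ) ≃L[ℝ] C(L, ℝ))

/-- The cardinal `beth ((beth 3)⁺)`. -/
noncomputable def kappa : Cardinal.{0} := beth (Order.succ (beth 3)).ord

theorem exists_model (𝕜 H : Type) [RCLike 𝕜] [NormedAddCommGroup H] [InnerProductSpace 𝕜 H]
    [CompleteSpace H] : ∃ Γ : Type, #H ≤ 𝔠 ^ #Γ ∧ Nonempty (B Γ ≃ₜ wBall 𝕜 H) := by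
  let _ : InnerProductSpace ℝ H := InnerProductSpace.rclikeToReal 𝕜 H
  obtain ⟨w, b, -⟩ := exists_hilbertBasis ℝ H
  refine ⟨w, ?_, ?_⟩
  · rw [← mk_real, power_def]
    refine mk_le_of_injective (f := fun x γ => b.repr x γ) fun x y h => ?_
    exact b.repr.injective (lp.ext (funext fun γ => congrFun h γ))
  let f : B w → wBall 𝕜 H := fun x =>
    ⟨toWeakSpace 𝕜 H (b.repr.symm (toH x)), _, by
      rw [mem_closedBall_zero_iff, LinearIsometryEquiv.norm_map]; exact norm_toH x, rfl⟩
  have hc : Continuous f := by
    refine Continuous.subtype_mk ?_ _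
    refine WeakBilin.continuous_of_continuous_eval _ fun g => ?_
    have key : ∀ p : 𝕜 →L[ℝ] ℝ, Continuous fun x : B w => p (g (b.repr.symm (toH x))) := by
      intro p
      let q : H →L[ℝ] ℝ :=
        { toFun := fun y => p (g y)
          map_add' := fun y z => by rw [map_add, map_add]
          map_smul' := fun r y => by
            change p (g ((r : 𝕜) • y)) = r • p (g y)
            rw [map_smul, ← map_smul p, RCLike.real_smul_eq_coe_smul (K := 𝕜)]
          cont := p.continuous.comp g.continuous }
      exact continuous_eval_toH (q.comp b.repr.symm.toContinuousLinearEquiv.toContinuousLinearMap)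
    have e : (fun x : B w => g (b.repr.symm (toH x))) = fun x : B w =>
        ((RCLike.reCLM (K := 𝕜) (g (b.repr.symm (toH x))) : ℝ) : 𝕜) +
          ((RCLike.imCLM (K := 𝕜) (g (b.repr.symm (toH x))) : ℝ) : 𝕜) * RCLike.I := by
      funext x
      simp only [RCLike.reCLM_apply, RCLike.imCLM_apply, RCLike.re_add_im]
    change Continuous fun x : B w => g (b.repr.symm (toH x))
    rw [e]
    exact (RCLike.continuous_ofReal.comp (key _)).add
      ((RCLike.continuous_ofReal.comp (key _)).mul continuous_const)
  have hb : Function.Bijective f := by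
    constructor
    · intro x y h
      have h1 : toH x = toH y :=
        b.repr.symm.injective ((toWeakSpace 𝕜 H).injective (congrArg Subtype.val h))
      apply Subtype.ext; funext γ
      rw [← toH_apply, h1, toH_apply]
    · rintro ⟨_, y, hy, rfl⟩
      let z : H2 w := b.repr y
      have h2 : ‖z‖ ≤ 1 := by
        rw [LinearIsometryEquiv.norm_map]; exact mem_closedBall_zero_iff.mp hy
      refine ⟨⟨fun γ => z γ, fun s => ?_⟩, Subtype.ext ?_⟩
      · have h1 := lp.sum_rpow_le_norm_rpow (p := 2) (by simp) z s
        simp only [rpow_two_eq] at h1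
        exact h1.trans (Real.rpow_le_one (norm_nonneg _) h2 (by simp))
      · change toWeakSpace 𝕜 H (b.repr.symm z) = toWeakSpace 𝕜 H y
        rw [LinearIsometryEquiv.symm_apply_apply]
  exact ⟨Continuous.homeoOfEquivCompactToT2 (f := Equiv.ofBijective f hb) hc⟩

/-- Let `H` be a real or complex Hilbert space of cardinality at least `beth ((beth 3)⁺)`.
Then `H` is not separable, its weak unit ball is compact, and the Banach space of continuous real
functions on the weak unit ball is not isomorphic to `C(L)` for any totally disconnected compact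
Hausdorff space `L`. Such spaces `H` exist. -/
theorem result :
    (∀ (𝕜 H : Type) [RCLike 𝕜] [NormedAddCommGroup H] [InnerProductSpace 𝕜 H] [CompleteSpace H],
      kappa ≤ #H →
        ¬ TopologicalSpace.SeparableSpace H ∧ CompactSpace (wBall 𝕜 H) ∧
        ∀ (L : Type v) [TopologicalSpace L] [CompactSpace L] [T2Space L]
          [TotallyDisconnectedSpace L], ¬ CIso (wBall 𝕜 H) L) ∧
    ∃ Γ : Type, kappa ≤ #(lp (fun _ : Γ => ℝ) 2) := by
  refine ⟨fun 𝕜 H _ _ _ _ hH => ?_, ?_⟩
  · change theta ≤ #H at hH
    have hc : 𝔠 < theta := by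
      rw [← beth_one]
      exact (beth_le_beth.mpr (by norm_num)).trans_lt beth3_lt_theta
    obtain ⟨Γ, hΓ, ⟨φ⟩⟩ := exists_model 𝕜 H
    have hbig : theta ≤ #Γ := by
      by_contra hlt
      exact absurd (hH.trans hΓ) (not_le.mpr (theta_pow hc (not_le.mp hlt)))
    refine ⟨fun hs => absurd (hH.trans (mk_le_of_separable H)) (not_le.mpr hc),
      φ.compactSpace, fun L _ _ _ _ ⟨S⟩ => ?_⟩
    exact not_iso' hbig L ((ContinuousLinearEquiv.equivOfInverse
      (ContinuousMap.compCLM ℝ ℝ (φ.symm : C(_, _))) (ContinuousMap.compCLM ℝ ℝ (φ : C(_, _)))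
      (fun f => by ext x; simp) (fun f => by ext x; simp)).trans S)
  · classical
    refine ⟨theta.out, ?_⟩
    change theta ≤ _
    conv_lhs => rw [← mk_out theta]
    refine mk_le_of_injective (f := fun γ => lp.single 2 γ (1 : ℝ)) fun a b h => ?_
    by_contra hne
    have := congrArg (fun z : lp (fun _ : theta.out => ℝ) 2 => z a) h
    simp [lp.single_apply, hne] at this

end Pool.Agent.Results.MP_9e0ccb_an.LargeHilbert
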